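import Pool.Agent.Y200.CY.FinalY
import Pool.Agent.Y200.CY.Lgx
import Pool.Agent.Y200.CY.Tt
import Pool.Agent.Y200.CY.Upd

/-!
# Smooth Calabi-Yau hypersurfaces in products of lines and planes are potentially dense
-/

set_option autoImplicit false

open MvPolynomial AlgebraicGeometry CategoryTheory
open Pool.Agent.W572 Pool.Agent.W572.G Pool.Agent.Y200.CY

namespace Pool.Agent.Results.MP_9410e4_ag.CalabiYauLinesPlanes

/-- Let `X` be a smooth hypersurface `F = 0` of multidegree `(2, …, 2; 3, …, 3)` in
`(ℙ¹)^a × (ℙ²)^b`, over a number field `k₀`. If `a = 1`, so that `F = A S² + B S T + C T²` in the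
coordinates `S`, `T` of the line, then we suppose that `b ≠ 0` and that `A`, `B`, `C` are linearly
independent (that is, the second derivatives `2 A`, `B`, `2 C` are linearly independent). Then
every scheme over `k₀` which is dominated by `X` is potentially dense.

Here `Sg a b` is the set of the homogeneous coordinates, `MHom F` says that `F` has degree two in
each pair of coordinates of a line and degree three in each triple of coordinates of a plane, `NZ z`
says that `z` is nonzero in each factor, `Af a b` is the set of the affine coordinates (all but the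
first coordinate of each factor) and `deh e F` is the affine equation `F(1, x) = 0`, for a numbering
`e` of the affine coordinates. -/
theorem result (k₀ : Type) [Field k₀] [NumberField k₀] {a b N : ℕ} (hab : a + b ≠ 0)
    (F : MvPolynomial (Sg a b) k₀) (hF : MHom F)
    (ha : a ≠ 1 ∨ (b ≠ 0 ∧ ∃ i : Fin a, LinearIndependent k₀
      ![pderiv (.inl (i, 0)) (pderiv (.inl (i, 0)) F), pderiv (.inl (i, 0)) (pderiv (.inl (i, 1)) F),
        pderiv (.inl (i, 1)) (pderiv (.inl (i, 1)) F)]))
    (hsmooth : ∀ z : Sg a b → AlgebraicClosure k₀, NZ z → aeval z F = 0 →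
      ∃ s, aeval z (pderiv s F) ≠ 0)
    (e : Af a b ≃ Fin N) {X : Scheme.{0}} (sX : X ⟶ Spec (.of k₀))
    (f : (hypersurface (deh e F)).PartialMap X) (hf : IsDominant f.hom)
    (hfk : f.hom ≫ sX = f.domain.ι ≫ hypersurfaceStr (deh e F)) :
    PotentiallyDense sX :=
  dens_of_pts k₀ (deh e F) (finalY_pts Upd.upd Tt.tt Lgx.lg1 Tt.lid k₀
    (Pool.Agent.Y742.GG.fg_of_numberField k₀) hab e F hF ha hsmooth) sX f hf hfk

end Pool.Agent.Results.MP_9410e4_ag.CalabiYauLinesPlanes
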