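import Mathlib
import Pool.Agent.Y221.CF.Core
import Pool.Agent.TH466.QT.Den

/-!
MP_9410e4_ag, Q1: potential density for special varieties which are dominated by varieties given by high powers.

Let `V` be an irreducible component, of dimension `w ≥ 1`, of a projective variety in `ℙⁿ` which is
given by sums of at most `s` powers of linear forms, or by forms with at most `s` monomials and
divisible exponents, the exponents being at least `N ≥ 4 w 10 ^ s (r + 1) ^ 7`. We consider all
projective varieties `X` with a dominant rational map `V ⇢ X` of degree at most `r`. No assumption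
is made on the map (in particular it need not be a quotient by a group) and on the singularities.

`K` and `L` are the function fields of `V` and `X`, `y` is the generic point of `V`. `HighPowers`,
`SubVar`, `IsComponent`, `GeneralType`, `Special` (no Bogomolov sheaf): `Pool/Agent/W602/GT`;
`TensorVanish` (no nonzero tensor differentials), `IsUnirational`: `Pool/Agent/W619`.
`PotentiallyDense k x`: for some finitely generated subfield of `k` (a number field, if `k` is the
field of algebraic numbers) the points of `X` with coordinates in this field are Zariski-dense;
`x` is the generic point of `X` (`Pool/Agent/TH466/QT/Den.lean`).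
-/

set_option autoImplicit false
set_option maxHeartbeats 400000

namespace Pool.Agent.Results.MP_9410e4_ag.DominatedSpecial

open Pool.Agent.W602.GT
open Pool.Agent.W619.TW (IsUnirational)
open Pool.Agent.TH466.QT (PotentiallyDense)

/-- Let `V`, `w`, `s`, `N`, `r` be as above, over an algebraically closed field `k` of characteristic
zero, and let `X` be a projective variety with a dominant rational map `V ⇢ X` of degree at most `r`.
If `X` is special, then `X` is unirational and potentially dense. -/
theorem result {k : Type} [Field k] [IsAlgClosed k] [CharZero k] {n : ℕ} {ι : Type}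
    {F : ι → MvPolynomial (Fin (n + 1)) k} {s N r w : ℕ}
    (hF : HighPowers s N F) (hw : 1 ≤ w) (hN : w * (4 * 10 ^ s * (r + 1) ^ 7) ≤ N)
    {K : Type} [Field K] [Algebra k K] {y : Fin (n + 1) → K} (hy : SubVar F K w y)
    (hcomp : IsComponent F y) (L : Type) [Field L] [Algebra k L] [Algebra L K]
    [IsScalarTower k L K] [FiniteDimensional L K] (hr : Module.finrank L K ≤ r)
    (hX : Special k L w (fun _ => False)) :
    IsUnirational k L w ∧ ∀ (M : ℕ) (x : Fin (M + 1) → L), x ≠ 0 → coords k x = ⊤ →
      PotentiallyDense k x := by
  obtain ⟨hN1, -, -, hN4⟩ := Pool.Agent.Y221.PB.nums (r := r) (s := s) (N := N) hw (le_refl 1)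
    (by rw [one_mul]; exact hN)
  rw [one_mul] at hN1
  have hN0 : 1 ≤ N := (Pool.Agent.Y221.AB.one_le_NB _ s).trans hN1
  rcases Pool.Agent.Y221.CF.core_main hF hN0 hN1 hN4 hy hcomp with ⟨t, ht, htop⟩ | h
  · have h1 : IsUnirational k L w := Pool.Agent.TH466.QT.unirational_of_sub ht htop
    exact ⟨h1, fun M x hx _ => Pool.Agent.TH466.QT.dense_of_unirational h1 hx⟩
  · obtain ⟨b, -, -, h⟩ := h
    exact absurd hX (h L hr).2.2

end Pool.Agent.Results.MP_9410e4_ag.DominatedSpecial
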