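import Pool.Agent.Y742.SP.Main

set_option autoImplicit false

/-!
# Varieties connected by fibrations in curves of genus at most one are special and potentially dense

Let `k₀` be a number field with algebraic closure `Ω` and let `F` be a polynomial
in `N` variables over `k₀` which is irreducible over `Ω`. Let `K` be the function field over `Ω` of
the hypersurface `F = 0` (every geometrically integral variety over `k₀` is birational to such a
hypersurface). A dominant rational fibration of the variety in curves is given by an intermediate
field `L` of `K`, the function field of the base; then `K` is the function field of the generic
fibre, a curve over `L`. We suppose that finitely many such fibrations are given, by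
`L 1, …, L m`, and that their fibres have genus at most one.

The hypothesis on the fibrations is that no nonconstant rational function is invariant under all of
them: an element of `K` which is algebraic over every `L i` is constant. (So general points are
connected by chains of fibres.)

Then the variety is special in the sense of Campana (it has no Bogomolov sheaf), and the variety and
every scheme over `k₀` dominated by it are potentially dense.

No rational point, no section or multisection, no smoothness and no transversality condition is
supposed.

That the generic fibre has genus at most one is expressed as follows: `K` is over `L i` either the
function field of a curve `w² = Q(t)`, with `Q` of degree at most four and not a constant times a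
square (this contains all conics), or the function field of a torsor under an elliptic curve over
`L i`; every smooth projective curve of genus one over `L i` is a torsor under its Jacobian.

The proof. First, the vector fields tangent to one of the fibrations generate the Lie algebra of all
rational vector fields: otherwise the (involutive) distribution generated by them, restricted to the
fibres, gives a function which is algebraic over all `L i` (an argument with exponentials of the
tangent vector fields and descent). Then, there are a prime `p` and a point of the variety with
coordinates in `ℚ_p` which is generic over a finitely generated field `k` over which everything is
defined. Near this point the points over a finite extension `M` of `k` in `ℚ_p` can be moved along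
the fibres: the relevant points of the elliptic curves (the difference of the two points over the
same `t`, or the sum of the conjugates in a trivialisation of the torsor) have infinite order, since
this holds at the generic point (the logarithmic derivative does not vanish) and since the orders of
torsion points in a `p`-adic family are bounded. So the vanishing ideal of the `M`-points near the
generic point is stable under the derivations tangent to the fibres, and then under all derivations.
The variety is special: on a fibre of genus at most one the sections of a power of a rank one sheaf
of forms have, after contraction with the tangent vector field, no poles, so that their ratios are
algebraic over every `L i`, hence constant.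
-/

namespace Pool.Agent.Results.MP_9410e4_ag.GenusOneFibrations

open MvPolynomial AlgebraicGeometry CategoryTheory
open Pool.Agent.W572 Pool.Agent.W572.G Pool.Agent.Y742.GG Pool.Agent.W602.GT

/-- Let `F` be a polynomial over `k₀` (a number field), irreducible over the
algebraic closure, and let `K` be the function field of `F = 0` over the algebraic closure. Let
`L i` be finitely many intermediate fields such that `K` is over `L i` the function field of a curve
`w² = Q(t)`, with `Q` of degree at most four and not a constant times a square, or of a torsor under
an elliptic curve. Suppose that the elements of `K` which are algebraic over every `L i` are
constant. Then `K` is the function field of special varieties, and every scheme over `k₀` to which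
the hypersurface `F = 0` admits a dominant rational map over `k₀` is potentially dense. -/
theorem result (k₀ : Type) [Field k₀] [NumberField k₀] {N m : ℕ}
    (F : MvPolynomial (Fin N) k₀)
    (hF : Irreducible (map (algebraMap k₀ (AlgebraicClosure k₀)) F))
    {K : Type} [Field K] [Algebra (AlgebraicClosure k₀) K] {x : Fin N → K}
    (hx : IsGenericPoint (map (algebraMap k₀ (AlgebraicClosure k₀)) F) x)
    (L : Fin m → IntermediateField (AlgebraicClosure k₀) K)
    (hL : ∀ i, IsDoubleCoverOfLine (L i) ∨ IsEllipticTorsor (L i))
    (hinv : ∀ a : K, (∀ i, IsAlgebraic (L i) a) →
      a ∈ Set.range (algebraMap (AlgebraicClosure k₀) K)) :
    (∃ w : ℕ, Algebra.trdeg (AlgebraicClosure k₀) K = w ∧
      Special (AlgebraicClosure k₀) K w (fun _ => False)) ∧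
    ∀ (X : Scheme.{0}) (sX : X ⟶ Spec (.of k₀)) (f : (hypersurface F).PartialMap X),
      IsDominant f.hom → f.hom ≫ sX = f.domain.ι ≫ hypersurfaceStr F → PotentiallyDense sX :=
  ⟨Pool.Agent.Y742.SP.special_main hx L hL hinv, fun _ sX f hf hfk =>
    Pool.Agent.Y742.CN.main k₀ (fg_of_numberField k₀) F hF hx L hL hinv sX f hf hfk⟩

end Pool.Agent.Results.MP_9410e4_ag.GenusOneFibrations
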