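import Pool.Agent.Y200.CY.FinalF

/-!
# Hypersurfaces whose equation has low degree in pairs of variables are potentially dense

No smoothness, no rational point, no section or multisection is supposed.
-/

set_option autoImplicit false

open MvPolynomial AlgebraicGeometry CategoryTheory
open Pool.Agent.W572 Pool.Agent.W572.G Pool.Agent.Y200.CY

namespace Pool.Agent.Results.MP_9410e4_ag.LowDegreePairs

/-- Let `k₀` be a number field and `f` a polynomial over `k₀` in `N` variables which involves all
the variables and is irreducible over the algebraic closure. Let `S` be a set of pairs of different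
variables which involves all the variables, such that for every pair `(p, q)` in `S` every monomial
of `f` has degree at most two in `p` and in `q`, or every monomial has total degree at most three in
`p`, `q`, or every monomial satisfies `2 deg_p + deg_q ≤ 4` (`Edge f p q`). Suppose that any two
pairs in `S` are connected by a sequence of pairs in `S` in which consecutive pairs `e`, `e'` are
linked (`Linked f e e'`): they have a variable in common, or `f` does not divide `mixed f e e'`, the
numerator of the derivative of `(∂f/∂p') / (∂f/∂q')`, `e' = (p', q')`, along the vector field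
`(∂f/∂q) ∂/∂p - (∂f/∂p) ∂/∂q`, `e = (p, q)`. Then every scheme over `k₀` which is dominated by the
hypersurface `f = 0` is potentially dense. -/
theorem result (k₀ : Type) [Field k₀] [NumberField k₀] {N : ℕ}
    (f : MvPolynomial (Fin N) k₀)
    (hf : Irreducible (MvPolynomial.map (algebraMap k₀ (AlgebraicClosure k₀)) f))
    (hvar : ∀ l, f.degreeOf l ≠ 0) (S : Set (Fin N × Fin N))
    (hS : ∀ e ∈ S, e.1 ≠ e.2 ∧ Edge f e.1 e.2) (hcov : ∀ l, ∃ e ∈ S, l = e.1 ∨ l = e.2)
    (hconn : ∀ e e' : S, Relation.ReflTransGen (fun e e' : S => Linked f e.1 e'.1) e e')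
    {X : Scheme.{0}} (sX : X ⟶ Spec (.of k₀))
    (φ : (hypersurface f).PartialMap X) (hφ : IsDominant φ.hom)
    (hφk : φ.hom ≫ sX = φ.domain.ι ≫ hypersurfaceStr f) :
    PotentiallyDense sX :=
  dens_of_pts k₀ f (finalF_pts k₀ (Pool.Agent.Y742.GG.fg_of_numberField k₀) f hf hvar S hS hcov
    hconn) sX φ hφ hφk

/-- The case of all pairs of variables, as an example: `f` involves all of its `N ≥ 2` variables,
has degree at most two in each of them, and is irreducible over the algebraic closure. -/
theorem degree_two (k₀ : Type) [Field k₀] [NumberField k₀] {N : ℕ} (hN : 2 ≤ N)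
    (f : MvPolynomial (Fin N) k₀)
    (hf : Irreducible (MvPolynomial.map (algebraMap k₀ (AlgebraicClosure k₀)) f))
    (hvar : ∀ l, f.degreeOf l ≠ 0) (h2 : ∀ l, f.degreeOf l ≤ 2)
    {X : Scheme.{0}} (sX : X ⟶ Spec (.of k₀))
    (φ : (hypersurface f).PartialMap X) (hφ : IsDominant φ.hom)
    (hφk : φ.hom ≫ sX = φ.domain.ι ≫ hypersurfaceStr f) :
    PotentiallyDense sX := by
  have hN' : Nontrivial (Fin N) := Fin.nontrivial_iff_two_le.2 hN
  refine result k₀ f hf hvar {e | e.1 ≠ e.2} (fun e he => ⟨he, Or.inl fun m hm => ⟨?_, ?_⟩⟩)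
    (fun l => ?_) (fun e e' => ?_) sX φ hφ hφk
  · exact (degreeOf_le_iff.1 (h2 e.1)) m hm
  · exact (degreeOf_le_iff.1 (h2 e.2)) m hm
  · obtain ⟨l', hl'⟩ := exists_ne l
    exact ⟨(l, l'), Ne.symm hl', Or.inl rfl⟩
  · obtain ⟨⟨p, q⟩, he⟩ := e
    obtain ⟨⟨p', q'⟩, he'⟩ := e'
    by_cases h : q = p'
    · exact Relation.ReflTransGen.single (Or.inl (Or.inr (Or.inr (Or.inl h))))
    · let c : {e : Fin N × Fin N | e.1 ≠ e.2} := ⟨(q, p'), h⟩
      refine (Relation.ReflTransGen.single (b := c) ?_).tail ?_
      · exact Or.inl (Or.inr (Or.inr (Or.inl rfl)))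
      · exact Or.inl (Or.inr (Or.inr (Or.inl rfl)))

/-- Double covers, as an example: `f = w² - P`, where `P` does not contain the variable `w`, involves
all the other variables (there is at least one), has degree at most four in each of them, and is not
a square over the algebraic closure. -/
theorem double_covers (k₀ : Type) [Field k₀] [NumberField k₀] {N : ℕ} (w : Fin N)
    (hN : ∃ l, l ≠ w) (P : MvPolynomial (Fin N) k₀) (hw : P.degreeOf w = 0)
    (hf : Irreducible (MvPolynomial.map (algebraMap k₀ (AlgebraicClosure k₀))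
      (MvPolynomial.X w ^ 2 - P)))
    (hvar : ∀ l, l ≠ w → (MvPolynomial.X w ^ 2 - P).degreeOf l ≠ 0)
    (hvar' : (MvPolynomial.X w ^ 2 - P).degreeOf w ≠ 0)
    (h4 : ∀ l, l ≠ w → P.degreeOf l ≤ 4)
    {X : Scheme.{0}} (sX : X ⟶ Spec (.of k₀))
    (φ : (hypersurface (MvPolynomial.X w ^ 2 - P)).PartialMap X) (hφ : IsDominant φ.hom)
    (hφk : φ.hom ≫ sX = φ.domain.ι ≫ hypersurfaceStr (MvPolynomial.X w ^ 2 - P)) :
    PotentiallyDense sX := by
  classical
  refine result k₀ (MvPolynomial.X w ^ 2 - P) hf (fun l => ?_) {e | e.1 = w ∧ e.2 ≠ w}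
    (fun e he => ⟨fun h => he.2 (h ▸ he.1), Or.inr (Or.inr fun m hm => ?_)⟩)
    (fun l => ?_) (fun e e' => ?_) sX φ hφ hφk
  · by_cases h : l = w
    · rw [h]; exact hvar'
    · exact hvar l h
  · obtain ⟨h1, h2⟩ := he
    have := support_sub _ _ _ hm
    rw [Finset.mem_union] at this
    rcases this with h | h
    · rw [X_pow_eq_monomial, support_monomial, if_neg one_ne_zero, Finset.mem_singleton] at h
      rw [h, h1, Finsupp.single_eq_same, Finsupp.single_apply, if_neg (Ne.symm h2)]
      norm_num
    · have h3 := (degreeOf_le_iff.1 (h4 e.2 h2)) m h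
      have h4 := (degreeOf_le_iff.1 hw.le) m h
      rw [h1]
      omega
  · by_cases h : l = w
    · obtain ⟨l', hl'⟩ := hN
      exact ⟨(w, l'), ⟨rfl, hl'⟩, Or.inl h⟩
    · exact ⟨(w, l), ⟨rfl, h⟩, Or.inr rfl⟩
  · exact Relation.ReflTransGen.single (Or.inl (Or.inl (e.2.1.trans e'.2.1.symm)))

end Pool.Agent.Results.MP_9410e4_ag.LowDegreePairs
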